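import Mathlib

set_option autoImplicit false

namespace Pool.Agent.Results.MP_f0da7f_al.Count

open Cardinal Submodule

universe u

section
variable {F V : Type u} [Field F] [AddCommGroup V] [Module F V]

def IsIdeal (I : Set (Submodule F V)) : Prop :=
  ⊥ ∈ I ∧ ⊤ ∉ I ∧ (∀ U ∈ I, ∀ W ≤ U, W ∈ I) ∧ ∀ U ∈ I, ∀ W ∈ I, U ⊔ W ∈ I

def IsFilter (G : Set (Submodule F V)) : Prop :=
  ⊤ ∈ G ∧ ⊥ ∉ G ∧ (∀ U ∈ G, ∀ W ≥ U, W ∈ G) ∧ ∀ U ∈ G, ∀ W ∈ G, U ⊓ W ∈ G

end

def Fil {L : Type u} [Lattice L] [BoundedOrder L] (G : Set L) : Prop :=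
  ⊤ ∈ G ∧ ⊥ ∉ G ∧ (∀ U ∈ G, ∀ W ≥ U, W ∈ G) ∧ ∀ U ∈ G, ∀ W ∈ G, U ⊓ W ∈ G

lemma lower {L L' A : Type u} {B : Type*} [Lattice L] [BoundedOrder L] [Lattice L']
    [BoundedOrder L'] (φ : L' ≃o L) (U : A → B → L') (h1 : ∀ a s t, s ≠ t → U a s ⊓ U a t = ⊥)
    (h2 : ∀ (p : Finset A) (τ : A → B), p.inf (fun a => U a (τ a)) ≠ ⊥) :
    ∃ f : (A → B) → {G : Set L // Maximal Fil G}, Function.Injective f := by
  classical
  have : ∀ τ : A → B, ∃ G : Set L, Maximal Fil G ∧ ∀ a, φ (U a (τ a)) ∈ G := by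
    intro τ
    obtain ⟨G, h, hG⟩ := zorn_subset_nonempty {G : Set L | Fil G} (by
      intro c hc hch ⟨G, hG⟩
      refine ⟨⋃₀ c, ⟨⟨G, hG, (hc hG).1⟩, fun ⟨H, hH, h⟩ => (hc hH).2.1 h,
        fun x ⟨H, hH, h⟩ y hy => ⟨H, hH, (hc hH).2.2.1 x h y hy⟩,
        fun x ⟨H, hH, h⟩ y ⟨K, hK, k⟩ => ?_⟩, fun s hs => Set.subset_sUnion_of_mem hs⟩
      rcases hch.total hH hK with e | e
      · exact ⟨K, hK, (hc hK).2.2.2 x (e h) y k⟩
      · exact ⟨H, hH, (hc hH).2.2.2 x h y (e k)⟩)
      {W | ∃ p : Finset A, φ (p.inf fun a => U a (τ a)) ≤ W}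
      ⟨⟨∅, le_top⟩, fun ⟨p, h⟩ => h2 p τ (φ.injective ((le_bot_iff.1 h).trans φ.map_bot.symm)), fun x ⟨p, h⟩ y hy => ⟨p, h.trans hy⟩,
        fun x ⟨p, h⟩ y ⟨q, k⟩ => ⟨p ∪ q, by
          rw [Finset.inf_union, φ.map_inf]; exact inf_le_inf h k⟩⟩
    exact ⟨G, hG, fun a => h ⟨{a}, by simp⟩⟩
  choose G hG h using this
  refine ⟨fun τ => ⟨G τ, hG τ⟩, fun τ σ e => funext fun a => by_contra fun hne => ?_⟩
  have e' : G τ = G σ := congrArg Subtype.val e
  have := (hG τ).prop.2.2.2 _ (h τ a) _ (e' ▸ h σ a)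
  rw [← φ.map_inf, h1 a _ _ hne, φ.map_bot] at this
  exact (hG τ).prop.2.1 this

variable {F V : Type u} [Field F] [AddCommGroup V] [Module F V]

lemma wedge_ne {n : ℕ} {v : Fin n → V} :
    ExteriorAlgebra.ιMulti F n v ≠ 0 ↔ LinearIndependent F v := by
  classical
  refine ⟨fun h => by_contra fun h' => h (AlternatingMap.map_linearDependent _ _ h'), fun hv h => ?_⟩
  obtain ⟨f, hf⟩ := (Fintype.linearCombination F v).exists_leftInverse_of_injective
    (LinearMap.ker_eq_bot.2 hv.fintypeLinearCombination_injective)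
  have h1 : (fun i => f (v i)) = (1 : Matrix (Fin n) (Fin n) F) := by
    funext i
    have := LinearMap.congr_fun hf (Pi.single i 1)
    simp only [LinearMap.comp_apply, Fintype.linearCombination_apply_single, one_smul] at this
    rw [this]; funext j; simp [Matrix.one_apply, Pi.single_apply, eq_comm]
  have := ExteriorAlgebra.liftAlternating_apply_ιMulti (R := F) (M := V) (N := F)
    (fun i => if h : i = n then h ▸ (Matrix.detRowAlternating.compLinearMap f) else 0) v
  rw [h, map_zero, dif_pos rfl] at this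
  simp only [AlternatingMap.compLinearMap_apply] at this
  rw [h1] at this
  exact zero_ne_one (this.trans Matrix.det_one)

lemma repr {ι : Type u} (h : Module.rank F V ≤ #ι) (W : Submodule F V) :
    ∃ (J : Set ι) (w : ι → V), LinearIndepOn F w J ∧ span F (w '' J) = W := by
  obtain ⟨b, hb, h1, h2⟩ := exists_linearIndependent F (W : Set V)
  obtain ⟨e⟩ := h2.cardinal_le_rank.trans h
  have : ∀ x, Function.extend e Subtype.val 0 (e x) = (x : V) := e.injective.extend_apply _ _
  refine ⟨Set.range e, Function.extend e Subtype.val 0, ?_, ?_⟩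
  · rw [LinearIndepOn, ← linearIndependent_equiv (Equiv.ofInjective e e.injective)]
    convert h2 using 1
    exact funext this
  · rw [← Set.range_comp, show Function.extend e Subtype.val 0 ∘ e = Subtype.val from funext this]
    simpa using h1

lemma small {ι : Type u} [Infinite ι] (h : Module.rank F V = #ι) (G : Set (Submodule F V)) :
    ∃ H ⊆ G, #H ≤ 2 ^ #ι ∧ ∀ U : Submodule F V, ∀ W ∈ G, U ⊓ W = ⊥ → ∃ W ∈ H, U ⊓ W = ⊥ := by
  classical
  have hi : ℵ₀ ≤ #ι := aleph0_le_mk ι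
  let D := Σ n : ℕ, Fin n → ι
  let ω : D → (ι → V) → ExteriorAlgebra F V := fun t w => ExteriorAlgebra.ιMulti F t.1 (w ∘ t.2)
  let β : Set ι × Set (D × ι) → Type u := fun a => a.2
  let P : ∀ a, (β a → ι → V) → (ι → V) → Prop := fun a c w => span F (w '' a.1) ∈ G ∧
    ∀ t : D, Function.Injective t.2 → Set.range t.2 ⊆ a.1 →
      ω t w ∉ span F {x | ∃ i h, x = ω t (c ⟨(t, i), h⟩)}
  let ev : WType β → ι → V := WType.elim _ fun a => Classical.epsilon (P a.1 a.2)
  have hD : #D = #ι := by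
    rw [← mk_list_eq_mk ι]; exact mk_congr List.equivSigmaTuple.symm
  have hT : #(WType β) ≤ 2 ^ #ι := by
    refine WType.cardinalMk_le_of_le ((sum_le_sum _ (fun _ => 2 ^ #ι) fun a => ?_).trans ?_)
    · rw [← power_mul]
      refine power_le_power_left two_ne_zero ((mul_le_mul_right (mk_set_le a.2) _).trans ?_)
      simp [hD, mul_eq_self hi]
    · simp [hD, mul_eq_self hi, ← power_add, add_eq_self hi]
  have hΛ : Module.rank F (ExteriorAlgebra F V) ≤ #ι := by
    let := linearOrderOfSTO (α := ι) WellOrderingRel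
    obtain ⟨e⟩ : Nonempty (Module.Free.ChooseBasisIndex F V ≃ ι) :=
      Cardinal.eq.1 (by rw [← h, Module.Free.rank_eq_card_chooseBasisIndex])
    rw [← ((Module.Free.chooseBasis F V).reindex e).ExteriorAlgebra.mk_eq_rank'']
    simp
  refine ⟨G ∩ Set.range fun x : Set ι × WType β => span F (ev x.2 '' x.1), Set.inter_subset_left,
    (mk_le_mk_of_subset Set.inter_subset_right).trans (mk_range_le.trans ?_), fun U W hW hU => ?_⟩
  · simp only [mk_prod, lift_id, mk_set]
    exact (mul_le_mul_right hT _).trans (by rw [← power_add, add_eq_self hi])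
  obtain ⟨J, w, w1, rfl⟩ := repr h.le W
  let Z := LinearMap.ker (ExteriorAlgebra.map U.mkQ).toLinearMap
  have hZ : ∀ t v, ω t v ∉ Z ↔ LinearIndependent F (U.mkQ ∘ v ∘ t.2) := fun t v => by
    rw [← wedge_ne, ← ExteriorAlgebra.map_apply_ιMulti]; rfl
  have : ∀ t : D, ∃ f : ι → WType β, ∀ x, ω t (ev x) ∈ Z →
      ω t (ev x) ∈ span F {y | ∃ i, ω t (ev (f i)) ∈ Z ∧ y = ω t (ev (f i))} := by
    intro t
    obtain ⟨b, hb, h1, h2⟩ := exists_linearIndependent F {y | ∃ x, ω t (ev x) ∈ Z ∧ y = ω t (ev x)}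
    obtain ⟨e⟩ := h2.cardinal_le_rank.trans hΛ
    choose g g1 g2 using fun y : b => hb y.2
    refine ⟨Function.extend e g fun _ => WType.mk (∅, ∅) fun x => x.2.elim, fun x hx => ?_⟩
    refine span_mono (fun y hy => ?_) (show _ ∈ span F b from h1 ▸ subset_span ⟨x, hx, rfl⟩)
    refine ⟨e ⟨y, hy⟩, ?_⟩
    rw [e.injective.extend_apply]
    exact ⟨g1 _, g2 ⟨y, hy⟩⟩
  choose f hf using this
  let a : Set ι × Set (D × ι) := (J, {x | ω x.1 (ev (f x.1 x.2)) ∈ Z})
  let c : β a → WType β := fun x => f x.1.1 x.1.2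
  obtain ⟨p1, p2⟩ : P a (ev ∘ c) (ev (WType.mk a c)) := by
    refine Classical.epsilon_spec (p := P a (ev ∘ c)) ⟨w, hW, fun t t1 t2 ht => ?_⟩
    refine (hZ t w).2 ?_ ((span_le (p := Z)).2 ?_ ht)
    · refine LinearIndependent.map (v := w ∘ t.2)
        (LinearIndependent.comp w1 (fun i => ⟨t.2 i, t2 ⟨i, rfl⟩⟩)
          fun i j e => t1 (congrArg Subtype.val e)) ?_
      rw [ker_mkQ, disjoint_comm]
      refine (disjoint_iff.2 hU).mono_right (span_mono ?_)
      rw [Set.range_comp]; exact Set.image_mono t2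
    · rintro _ ⟨i, h, rfl⟩; exact h
  refine ⟨_, ⟨p1, (J, WType.mk a c), rfl⟩, ?_⟩
  have : LinearIndependent F (U.mkQ ∘ fun j : J => ev (WType.mk a c) j) := by
    rw [linearIndependent_iff_finset_linearIndependent]
    intro s
    rw [← linearIndependent_equiv s.equivFin.symm]
    refine (hZ ⟨_, fun i => (s.equivFin.symm i : J)⟩ _).1 fun hz => p2 _ ?_ ?_
      (span_mono ?_ (hf _ _ hz))
    · exact Subtype.val_injective.comp (Subtype.val_injective.comp s.equivFin.symm.injective)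
    · rintro _ ⟨i, rfl⟩; exact (s.equivFin.symm i).1.2
    · rintro _ ⟨i, h, rfl⟩; exact ⟨i, h, rfl⟩
  have h2 := Submodule.range_ker_disjoint this
  rw [ker_mkQ, disjoint_comm, disjoint_iff] at h2
  rwa [Set.image_eq_range]

lemma card_sub {ι : Type u} [Infinite ι] (h : Module.rank F V = #ι) :
    #(Submodule F V) ≤ #F ^ #ι := by
  have hi : ℵ₀ ≤ #ι := aleph0_le_mk ι
  have h2 : 2 ^ #ι ≤ #F ^ #ι := power_le_power_right (two_le_iff.2 ⟨0, 1, zero_ne_one⟩)
  obtain ⟨e⟩ : Nonempty (V ≃ₗ[F] (ι →₀ F)) := Module.nonempty_linearEquiv_iff_rank_eq.2 (by simp [h])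
  have h3 : #V ≤ #F ^ #ι := by
    rw [mk_congr e.toEquiv, power_def]; exact mk_le_of_injective DFunLike.coe_injective
  refine (mk_le_of_surjective (f := fun x : Set ι × (ι → V) => span F (x.2 '' x.1)) fun W => ?_).trans ?_
  · obtain ⟨J, w, -, h⟩ := repr h.le W
    exact ⟨(J, w), h⟩
  · simp only [mk_prod, lift_id, mk_set, ← power_def]
    refine (mul_le_mul' h2 (power_le_power_right h3)).trans ?_
    rw [← power_mul, mul_eq_self hi, ← power_add, add_eq_self hi]

lemma interp {ι : Type u} (p : Finset (ι → F)) (τ : (ι → F) → F) :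
    ∃ q : MvPolynomial ι F, ∀ a ∈ p, MvPolynomial.eval a q = τ a := by
  classical
  have : ∀ a b : ι → F, ∃ q : MvPolynomial ι F, MvPolynomial.eval a q = 1 ∧
      (a ≠ b → MvPolynomial.eval b q = 0) := fun a b => by
    by_cases h : a = b
    · exact ⟨1, by simp, fun h' => absurd h h'⟩
    · obtain ⟨i, hi⟩ := Function.ne_iff.1 h
      exact ⟨.C (a i - b i)⁻¹ * (.X i - .C (b i)), by simp [sub_ne_zero.2 hi], by simp⟩
  choose q h1 h2 using this
  refine ⟨∑ a ∈ p, .C (τ a) * ∏ b ∈ p, q a b, fun b hb => ?_⟩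
  simp only [map_sum, map_mul, map_prod, MvPolynomial.eval_C]
  rw [Finset.sum_eq_single_of_mem b hb fun a _ h => by
    rw [Finset.prod_eq_zero hb (h2 a b h), mul_zero]]
  simp [h1]

open MvPolynomial in
lemma ideals {ι : Type u} [Infinite ι] (h : Module.rank F V = #ι) :
    2 ^ (#F ^ #ι) ≤ #{I : Set (Submodule F V) // Maximal IsIdeal I} := by
  classical
  have hi : ℵ₀ ≤ #ι := aleph0_le_mk ι
  let R := MvPolynomial (ι →₀ ℕ) F
  obtain ⟨e⟩ : Nonempty ((Finset (ι →₀ ℕ) →₀ R) ≃ₗ[F] V) :=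
    Module.nonempty_linearEquiv_iff_rank_eq.2 (by
      simp [h, R, MvPolynomial.rank_eq, hi, mul_eq_self hi])
  let l : Finset (ι →₀ ℕ) → (ι → F) → R := fun M a =>
    ∑ μ ∈ M, X μ * C (∏ i ∈ μ.support, a i ^ μ i)
  let k : Bool → F := fun b => if b then 1 else 0
  let T : (ι → F) → Bool → (Finset (ι →₀ ℕ) →₀ R) →ₗ[F] (Finset (ι →₀ ℕ) →₀ R) := fun a b =>
    Finsupp.lsum F fun M => Finsupp.lsingle M ∘ₗ LinearMap.mulLeft F (l M a - C (k b))
  have hT : ∀ a g, T a false g - T a true g = g := fun a g => by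
    have : T a false - T a true = LinearMap.id := by
      refine Finsupp.lhom_ext fun M r => ?_
      simp only [T, k, LinearMap.sub_apply, Finsupp.lsum_single, LinearMap.comp_apply,
        Finsupp.lsingle_apply, ← Finsupp.single_sub, LinearMap.mulLeft_apply, LinearMap.id_apply]
      simp [sub_mul]
    exact LinearMap.congr_fun this g
  obtain ⟨f, hf⟩ := lower (L := (Submodule F V)ᵒᵈ) (Submodule.orderIsoMapComap e).dual
    (fun a b => OrderDual.toDual (LinearMap.range (T a b))) (fun a s t hst => by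
      show LinearMap.range (T a s) ⊔ LinearMap.range (T a t) = ⊤
      refine eq_top_iff.2 fun g _ => hT a g ▸ ?_
      cases s <;> cases t <;> simp at hst
      · exact sub_mem (mem_sup_left ⟨g, rfl⟩) (mem_sup_right ⟨g, rfl⟩)
      · exact sub_mem (mem_sup_right ⟨g, rfl⟩) (mem_sup_left ⟨g, rfl⟩)) (fun p τ hp => by
      obtain ⟨q, hq⟩ := interp p fun a => k (τ a)
      let φ : (Finset (ι →₀ ℕ) →₀ R) →ₗ[F] F :=
        (aeval fun μ => q.coeff μ).toLinearMap ∘ₗ Finsupp.lapply q.support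
      have h1 : p.sup (fun a => LinearMap.range (T a (τ a))) = ⊤ := hp
      have h2 : p.sup (fun a => LinearMap.range (T a (τ a))) ≤ LinearMap.ker φ :=
        Finset.sup_le fun a ha => LinearMap.range_le_ker_iff.2 (Finsupp.lhom_ext fun M r => by
          have := hq a ha
          rw [eval_eq] at this
          by_cases hM : M = q.support <;> simp [φ, T, hM, l, this])
      rw [h1] at h2
      have := h2 (mem_top (x := Finsupp.single q.support 1))
      simp [φ] at this)
  have := mk_le_of_injective hf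
  simp only [mk_arrow, mk_bool, lift_id, lift_ofNat, lift_uzero] at this
  exact this

lemma filters {ι : Type u} [Infinite ι] (h : Module.rank F V = #ι) :
    #F ^ ((2 : Cardinal.{u}) ^ #ι) ≤ #{I : Set (Submodule F V) // Maximal IsFilter I} := by
  classical
  have hi : ℵ₀ ≤ #ι := aleph0_le_mk ι
  obtain ⟨e⟩ : Nonempty ((Finset ι × Finset (Finset ι) →₀ F) ≃ₗ[F] V) :=
    Module.nonempty_linearEquiv_iff_rank_eq.2 (by simp [h, mul_eq_self hi])
  let tr : Set ι → Finset ι → Finset ι := fun a A => A.filter (· ∈ a)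
  let U : Set ι → F → Submodule F (Finset ι × Finset (Finset ι) →₀ F) := fun a t =>
    { carrier := {g | ∀ A y, tr a A ∉ y → g (A, insert (tr a A) y) = t * g (A, y)}
      add_mem' := fun h1 h2 A y hy => by simp [h1 A y hy, h2 A y hy, mul_add]
      zero_mem' := by simp
      smul_mem' := fun c g h1 A y hy => by simp [h1 A y hy, mul_left_comm] }
  obtain ⟨f, hf⟩ := lower (Submodule.orderIsoMapComap e) U (fun a s t hst => by
      refine eq_bot_iff.2 fun g ⟨h1, h2⟩ => Finsupp.ext fun ⟨A, y⟩ => ?_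
      have : ∀ y, tr a A ∉ y → g (A, y) = 0 := fun y hy =>
        (mul_eq_mul_right_iff.1 ((h1 A y hy).symm.trans (h2 A y hy))).resolve_left hst
      by_cases hy : tr a A ∈ y
      · rw [← Finset.insert_erase hy, h1 A _ (by simp), this _ (by simp)]; simp
      · exact this y hy) (fun p τ hp => by
      have : ∀ a b : Set ι, ∃ i, (i ∈ a ↔ i ∈ b) → a = b := fun a b => by
        by_contra hc
        push Not at hc
        exact (hc (Classical.arbitrary ι)).2 (Set.ext fun i => (hc i).1)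
      choose d hd using this
      let A := (p ×ˢ p).image fun x => d x.1 x.2
      have inj : Function.Injective fun a : p => tr a A := fun a b hab => Subtype.ext (hd _ _ (by
        have := Finset.ext_iff.1 hab (d a b)
        have h2 : d a b ∈ A := Finset.mem_image.2 ⟨(a, b), Finset.mem_product.2 ⟨a.2, b.2⟩, rfl⟩
        simpa [tr, h2] using this))
      let σ := Function.extend (fun a : p => tr a A) (fun a => τ a) 0
      let g : Finset ι × Finset (Finset ι) →₀ F := Finsupp.onFinset ({A} ×ˢ A.powerset.powerset)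
        (fun x => if x ∈ {A} ×ˢ A.powerset.powerset then ∏ z ∈ x.2, σ z else 0) (by
          intro x hx; by_contra h; exact hx (if_neg h))
      have h1 : g ∈ p.inf fun a => U a (τ a) := by
        refine (Finset.le_inf (a := span F {g}) fun a ha => (span_singleton_le_iff_mem _ _).2 ?_)
          (mem_span_singleton_self g)
        intro B y hy
        by_cases hB : B = A
        · subst hB
          have : σ (tr a A) = τ a := inj.extend_apply _ _ ⟨a, ha⟩
          have h3 : tr a A ⊆ A := Finset.filter_subset _ _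
          simp [g, Finset.insert_subset_iff, h3, Finset.prod_insert hy, this]
        · simp [g, hB, Ne.symm hB]
      rw [hp, mem_bot] at h1
      simpa [g] using DFunLike.congr_fun h1 (A, ∅))
  have := mk_le_of_injective hf
  simp only [mk_arrow, mk_set, lift_id] at this
  exact this

theorem result (F V : Type u) [Field F] [AddCommGroup V] [Module F V]
    (h : ℵ₀ ≤ Module.rank F V) :
    #{I : Set (Submodule F V) // Maximal IsIdeal I} = (2 : Cardinal.{u}) ^ (#F ^ Module.rank F V) ∧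
    #{G : Set (Submodule F V) // Maximal IsFilter G} = #F ^ ((2 : Cardinal.{u}) ^ Module.rank F V) := by
  obtain ⟨ι, hι⟩ : ∃ ι : Type u, Module.rank F V = #ι := ⟨_, (mk_out _).symm⟩
  have : Infinite ι := infinite_iff.2 (hι ▸ h)
  have hi : ℵ₀ ≤ 2 ^ #ι := (aleph0_le_mk ι).trans (cantor _).le
  rw [hι]
  refine ⟨le_antisymm ((mk_subtype_le _).trans ?_) (ideals hι), le_antisymm ?_ (filters hι)⟩
  · rw [mk_set]; exact power_le_power_left two_ne_zero (card_sub hι)
  choose H h1 h2 h3 using small (F := F) hι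
  have key : ∀ G G' : Set (Submodule F V), Maximal IsFilter G → IsFilter G' → H G = H G' →
      G' ⊆ G := by
    intro G G' ⟨⟨a, b, c, d⟩, hG⟩ hG' e U hU
    refine hG (y := {X | ∃ W ∈ G, U ⊓ W ≤ X}) ⟨⟨⊤, a, le_top⟩, fun ⟨W, hW, k⟩ => ?_,
      fun X ⟨W, hW, k⟩ Y hY => ⟨W, hW, k.trans hY⟩,
      fun X ⟨W, hW, k⟩ Y ⟨W', hW', k'⟩ => ⟨_, d W hW W' hW', ?_⟩⟩
      (fun W hW => ⟨W, hW, inf_le_right⟩) ⟨⊤, a, inf_le_left⟩
    · obtain ⟨W', w1, w2⟩ := h3 G U W hW (le_bot_iff.1 k)
      exact hG'.2.1 (w2 ▸ hG'.2.2.2 U hU W' (h1 G' (e ▸ w1)))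
    · exact le_inf ((inf_le_inf_left _ inf_le_left).trans k) ((inf_le_inf_left _ inf_le_right).trans k')
  refine (mk_le_of_injective (f := fun G : {G : Set (Submodule F V) // Maximal IsFilter G} =>
    (⟨H G.1, h2 _⟩ : {t : Set (Submodule F V) // #t ≤ 2 ^ #ι})) ?_).trans
    ((mk_bounded_set_le _ _).trans ?_)
  · intro G G' e
    have e' : H G.1 = H G'.1 := congrArg Subtype.val e
    exact Subtype.ext ((key _ _ G'.2 G.2.prop e'.symm).antisymm (key _ _ G.2 G'.2.prop e'))
  · refine (power_le_power_right (max_le (card_sub hι) (hi.trans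
      (power_le_power_right (two_le_iff.2 ⟨0, 1, zero_ne_one⟩))))).trans ?_
    rw [← power_mul, mul_eq_right hi (cantor _).le (mk_ne_zero ι)]

end Pool.Agent.Results.MP_f0da7f_al.Count
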